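import Pool.Agent.H62.LV.Base
import Pool.Agent.H62.LV.Lin
import Pool.Agent.Helper79.LV.P6
import Pool.Agent.Helper79.LV.P7a
import Pool.Agent.Helper79.LV.P7b
import Pool.Agent.Helper99.LV.P7c

namespace Pool.Agent.H62.LV

open MeasureTheory Set Filter Topology

/-! ## P7: long time behaviour without barrier -/

private theorem P7_F₁_bound {a p q : ℝ} (ha : 0 < a) (hp : p ∈ Icc (0 : ℝ) 1)
    (hq : q ∈ Icc (0 : ℝ) 1) : |F₁ a p q| ≤ 1 + a := by
  obtain ⟨hp0, hp1⟩ := hp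
  obtain ⟨hq0, hq1⟩ := hq
  unfold F₁
  rw [abs_mul, abs_of_nonneg hp0]
  have h1 : |1 - a - p + a * q| ≤ 1 + a := by
    rw [abs_le]
    constructor <;> nlinarith
  calc p * |1 - a - p + a * q| ≤ 1 * (1 + a) := by
        apply mul_le_mul hp1 h1 (abs_nonneg _) (by norm_num)
    _ = 1 + a := one_mul _

private theorem P7_F₂_bound {b p q : ℝ} (hb : 0 < b) (hp : p ∈ Icc (0 : ℝ) 1)
    (hq : q ∈ Icc (0 : ℝ) 1) : |F₂ b p q| ≤ 1 + b := by
  obtain ⟨hp0, hp1⟩ := hp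
  obtain ⟨hq0, hq1⟩ := hq
  unfold F₂
  rw [abs_mul, abs_of_nonneg (by linarith : (0 : ℝ) ≤ 1 - q)]
  have h1 : |b * p - q| ≤ 1 + b := by
    rw [abs_le]
    constructor <;> nlinarith
  calc (1 - q) * |b * p - q| ≤ 1 * (1 + b) := by
        apply mul_le_mul (by linarith) h1 (abs_nonneg _) (by norm_num)
    _ = 1 + b := one_mul _

private theorem P7_sub {L : ℝ} : Ioi (0 : ℝ) ×ˢ Ioo 0 L ⊆ Ioi (0 : ℝ) ×ˢ Icc 0 L :=
  prod_mono le_rfl Ioo_subset_Icc_self

private theorem P7_contF₁ {a b L : ℝ} {p₀ q₀ : ℝ → ℝ} {p q : ℝ → ℝ → ℝ}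
    (hs : Coop a b L p₀ q₀ p q) :
    ContinuousOn (fun z : ℝ × ℝ => F₁ a (p z.1 z.2) (q z.1 z.2)) (Ioi 0 ×ˢ Icc 0 L) := by
  unfold F₁
  exact hs.contp.mul (((continuousOn_const.sub continuousOn_const).sub hs.contp).add
    (continuousOn_const.mul hs.contq))

private theorem P7_contF₂ {a b L : ℝ} {p₀ q₀ : ℝ → ℝ} {p q : ℝ → ℝ → ℝ}
    (hs : Coop a b L p₀ q₀ p q) :
    ContinuousOn (fun z : ℝ × ℝ => F₂ b (p z.1 z.2) (q z.1 z.2)) (Ioi 0 ×ˢ Icc 0 L) := by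
  unfold F₂
  exact (continuousOn_const.sub hs.contq).mul ((continuousOn_const.mul hs.contp).sub hs.contq)

private theorem P7_slice {L : ℝ} {w : ℝ → ℝ → ℝ}
    (hw : ContinuousOn (fun z : ℝ × ℝ => w z.1 z.2) (Ioi 0 ×ˢ Icc 0 L)) {t : ℝ} (ht : 0 < t) :
    ContinuousOn (w t) (Icc 0 L) := by
  have h1 : ContinuousOn (fun x : ℝ => ((t, x) : ℝ × ℝ)) (Icc 0 L) := by fun_prop
  have h2 := hw.comp h1 (fun x hx => ⟨ht, hx⟩)
  exact h2

private theorem P7_reg {L M : ℝ} {w : ℝ → ℝ → ℝ}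
    (hw : ContinuousOn (fun z : ℝ × ℝ => w z.1 z.2) (Ioi 0 ×ˢ Icc 0 L))
    (hb : ∀ t, 0 < t → ∀ x ∈ Icc 0 L, |w t x| ≤ M) : Reg L w :=
  ⟨hw.mono P7_sub, fun _ => ⟨M, fun t ht x hx => hb t ht.1 x (Ioo_subset_Icc_self hx)⟩⟩

private theorem P7_dct {l : ℝ} (hl : 0 < l) {f : ℕ → ℝ → ℝ} {g : ℝ → ℝ} {C : ℝ}
    (hc : ∀ n, ContinuousOn (f n) (Ioc 0 l)) (hb : ∀ n, ∀ x ∈ Ioc 0 l, |f n x| ≤ C)
    (hlim : ∀ x ∈ Ioc 0 l, Tendsto (fun n => f n x) atTop (𝓝 (g x))) :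
    Tendsto (fun n => ∫ x in (0 : ℝ)..l, f n x) atTop (𝓝 (∫ x in (0 : ℝ)..l, g x)) := by
  apply intervalIntegral.tendsto_integral_filter_of_dominated_convergence (fun _ => C)
  · filter_upwards with n
    rw [uIoc_of_le hl.le]
    exact (hc n).aestronglyMeasurable measurableSet_Ioc
  · filter_upwards with n
    filter_upwards with x hx
    rw [uIoc_of_le hl.le] at hx
    exact hb n x hx
  · exact intervalIntegrable_const
  · filter_upwards with x hx
    rw [uIoc_of_le hl.le] at hx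
    exact hlim x hx

private theorem P7_weaklim {L M : ℝ} (hL : 0 < L) {w h : ℝ → ℝ → ℝ} {W H : ℝ → ℝ}
    (cw : ContinuousOn (fun z : ℝ × ℝ => w z.1 z.2) (Ioi 0 ×ˢ Icc 0 L))
    (ch : ContinuousOn (fun z : ℝ × ℝ => h z.1 z.2) (Ioi 0 ×ˢ Icc 0 L))
    (bw : ∀ t, 0 < t → ∀ x ∈ Icc 0 L, |w t x| ≤ M)
    (bh : ∀ t, 0 < t → ∀ x ∈ Icc 0 L, |h t x| ≤ M)
    (hweak : ∀ t₀, 0 < t₀ → WeakHeat L (w t₀) (fun _ => 0) (fun _ => 0)
      (fun t x => h (t₀ + t) x) (fun t x => w (t₀ + t) x))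
    (hlimw : ∀ s ∈ Icc (0 : ℝ) 1, ∀ x ∈ Icc 0 L,
      Tendsto (fun n : ℕ => w ((n : ℝ) + 1 + s) x) atTop (𝓝 (W x)))
    (hlimh : ∀ s ∈ Icc (0 : ℝ) 1, ∀ x ∈ Icc 0 L,
      Tendsto (fun n : ℕ => h ((n : ℝ) + 1 + s) x) atTop (𝓝 (H x)))
    {φ : ℝ → ℝ} (hφ : ContDiff ℝ 2 φ) (h0 : φ 0 = 0) (hφL : φ L = 0) :
    ∫ x in (0 : ℝ)..L, (W x * deriv (deriv φ) x + H x * φ x) = 0 := by
  obtain ⟨-, c2, -, -⟩ := cont_deriv2 hφ
  have c0 : Continuous φ := hφ.continuous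
  obtain ⟨G0, hG0⟩ := isCompact_Icc.exists_bound_of_continuousOn (s := Icc 0 L) c0.continuousOn
  obtain ⟨G2, hG2⟩ := isCompact_Icc.exists_bound_of_continuousOn (s := Icc 0 L) c2.continuousOn
  have hM0 : 0 ≤ M := le_trans (abs_nonneg _) (bw 1 one_pos 0 ⟨le_rfl, hL.le⟩)
  have hG00 : 0 ≤ G0 := le_trans (norm_nonneg _) (hG0 0 ⟨le_rfl, hL.le⟩)
  have hG20 : 0 ≤ G2 := le_trans (norm_nonneg _) (hG2 0 ⟨le_rfl, hL.le⟩)
  have tpos : ∀ n : ℕ, (0 : ℝ) < (n : ℝ) + 1 := fun n => by positivity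
  -- the first integrals converge
  have hA : ∀ s ∈ Icc (0 : ℝ) 1, Tendsto (fun n : ℕ => ∫ x in (0 : ℝ)..L,
      w ((n : ℝ) + 1 + s) x * φ x) atTop (𝓝 (∫ x in (0 : ℝ)..L, W x * φ x)) := by
    intro s hs
    apply P7_dct hL (C := M * G0)
    · intro n
      have hn : (0 : ℝ) < (n : ℝ) + 1 + s := by have := tpos n; linarith [hs.1]
      exact ((P7_slice cw hn).mono Ioc_subset_Icc_self).mul c0.continuousOn
    · intro n x hx
      have hn : (0 : ℝ) < (n : ℝ) + 1 + s := by have := tpos n; linarith [hs.1]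
      rw [abs_mul]
      exact mul_le_mul (bw _ hn x (Ioc_subset_Icc_self hx)) (hG0 x (Ioc_subset_Icc_self hx))
        (abs_nonneg _) hM0
    · intro x hx
      exact (hlimw s hs x (Ioc_subset_Icc_self hx)).mul_const _
  -- the inner integral
  set I : ℕ → ℝ → ℝ := fun n s => ∫ x in (0 : ℝ)..L,
    (w ((n : ℝ) + 1 + s) x * deriv (deriv φ) x + h ((n : ℝ) + 1 + s) x * φ x) with hI
  have hIlim : ∀ s ∈ Icc (0 : ℝ) 1, Tendsto (fun n : ℕ => I n s) atTop
      (𝓝 (∫ x in (0 : ℝ)..L, (W x * deriv (deriv φ) x + H x * φ x))) := by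
    intro s hs
    apply P7_dct hL (C := M * G2 + M * G0)
    · intro n
      have hn : (0 : ℝ) < (n : ℝ) + 1 + s := by have := tpos n; linarith [hs.1]
      exact (((P7_slice cw hn).mono Ioc_subset_Icc_self).mul c2.continuousOn).add
        (((P7_slice ch hn).mono Ioc_subset_Icc_self).mul c0.continuousOn)
    · intro n x hx
      have hn : (0 : ℝ) < (n : ℝ) + 1 + s := by have := tpos n; linarith [hs.1]
      refine (abs_add_le _ _).trans ?_
      rw [abs_mul, abs_mul]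
      exact add_le_add (mul_le_mul (bw _ hn x (Ioc_subset_Icc_self hx))
        (hG2 x (Ioc_subset_Icc_self hx)) (abs_nonneg _) hM0)
        (mul_le_mul (bh _ hn x (Ioc_subset_Icc_self hx)) (hG0 x (Ioc_subset_Icc_self hx))
        (abs_nonneg _) hM0)
    · intro x hx
      exact ((hlimw s hs x (Ioc_subset_Icc_self hx)).mul_const _).add
        ((hlimh s hs x (Ioc_subset_Icc_self hx)).mul_const _)
  have rw' : Reg L w := P7_reg cw bw
  have rh' : Reg L h := P7_reg ch bh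
  have hIcont : ∀ n, ContinuousOn (I n) (Ioc 0 1) := by
    intro n
    have e : ∀ s ∈ Ioc (0 : ℝ) 1, I n s = (∫ x in (0 : ℝ)..L, w ((n : ℝ) + 1 + s) x *
        deriv (deriv φ) x) + ∫ x in (0 : ℝ)..L, h ((n : ℝ) + 1 + s) x * φ x := by
      intro s hs
      have hn : (0 : ℝ) < (n : ℝ) + 1 + s := by have := tpos n; linarith [hs.1]
      exact intervalIntegral.integral_add (rw'.slice hL hn c2) (rh'.slice hL hn c0)
    refine ContinuousOn.congr ?_ e
    have hsh : ContinuousOn (fun s : ℝ => (n : ℝ) + 1 + s) (Ioc 0 1) := by fun_prop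
    have hmaps : MapsTo (fun s : ℝ => (n : ℝ) + 1 + s) (Ioc 0 1) (Ioi 0) := by
      intro s hs
      have := tpos n
      show (0 : ℝ) < (n : ℝ) + 1 + s
      linarith [hs.1]
    exact ((rw'.continuousOn_integral hL c2).comp hsh hmaps).add
      ((rh'.continuousOn_integral hL c0).comp hsh hmaps)
  have hIbound : ∀ n, ∀ s ∈ Ioc (0 : ℝ) 1, |I n s| ≤ (M * G2 + M * G0) * L := by
    intro n s hs
    have hn : (0 : ℝ) < (n : ℝ) + 1 + s := by have := tpos n; linarith [hs.1]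
    have := intervalIntegral.norm_integral_le_of_norm_le_const (a := (0 : ℝ)) (b := L)
      (C := M * G2 + M * G0) (f := fun x => w ((n : ℝ) + 1 + s) x * deriv (deriv φ) x +
        h ((n : ℝ) + 1 + s) x * φ x) (by
      intro x hx
      rw [uIoc_of_le hL.le] at hx
      refine (norm_add_le _ _).trans ?_
      rw [norm_mul, norm_mul]
      exact add_le_add (mul_le_mul (bw _ hn x (Ioc_subset_Icc_self hx))
        (hG2 x (Ioc_subset_Icc_self hx)) (norm_nonneg _) hM0)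
        (mul_le_mul (bh _ hn x (Ioc_subset_Icc_self hx)) (hG0 x (Ioc_subset_Icc_self hx))
        (norm_nonneg _) hM0))
    rw [sub_zero, abs_of_pos hL] at this
    exact this
  have hB : Tendsto (fun n : ℕ => ∫ s in (0 : ℝ)..1, I n s) atTop
      (𝓝 (∫ s in (0 : ℝ)..1, ∫ x in (0 : ℝ)..L, (W x * deriv (deriv φ) x + H x * φ x))) :=
    P7_dct one_pos hIcont hIbound (fun s hs => hIlim s (Ioc_subset_Icc_self hs))
  have hBeq : ∀ n : ℕ, (∫ s in (0 : ℝ)..1, I n s) =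
      (∫ x in (0 : ℝ)..L, w ((n : ℝ) + 1 + 1) x * φ x) -
        ∫ x in (0 : ℝ)..L, w ((n : ℝ) + 1 + 0) x * φ x := by
    intro n
    have h1 := hweak ((n : ℝ) + 1) (tpos n) φ hφ h0 hφL 1 one_pos
    simp only [zero_mul, add_zero, sub_zero] at h1
    rw [h1, add_zero]
    ring
  have hlim0 : Tendsto (fun n : ℕ => ∫ s in (0 : ℝ)..1, I n s) atTop (𝓝 0) := by
    have h1 := (hA 1 ⟨zero_le_one, le_rfl⟩).sub (hA 0 ⟨le_rfl, zero_le_one⟩)
    rw [sub_self] at h1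
    exact h1.congr (fun n => (hBeq n).symm)
  have := tendsto_nhds_unique hB hlim0
  simpa using this

theorem decay_of_no_bar {a b L : ℝ} (ha : 0 < a) (hb : 1 < b) (hL : 0 < L)
    (hno : ¬ Bar a b L) {p₀ q₀ : ℝ → ℝ} (mp : Measurable p₀) (mq : Measurable q₀)
    (bp : ∀ x, p₀ x ∈ Icc (0 : ℝ) 1) (bq : ∀ x, q₀ x ∈ Icc (0 : ℝ) 1) {p q : ℝ → ℝ → ℝ}
    (hs : Coop a b L p₀ q₀ p q) :
    ∀ ε > 0, ∃ T > 0, ∀ t ≥ T, ∀ x ∈ Icc 0 L, p t x < ε ∧ q t x < ε := by
  have hb0 : 0 < b := by linarith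
  obtain ⟨Pt, Qt, hT⟩ := exists_coop (p₀ := fun _ => 1) (q₀ := fun _ => 1) ha hb0 hL
    measurable_const measurable_const (fun _ => ⟨zero_le_one, le_rfl⟩)
    (fun _ => ⟨zero_le_one, le_rfl⟩)
  have iOne : IntervalIntegrable (fun _ : ℝ => (1 : ℝ)) volume 0 L := intervalIntegrable_const
  have iBd : ∀ f : ℝ → ℝ, Measurable f → (∀ x, f x ∈ Icc (0 : ℝ) 1) →
      IntervalIntegrable f volume 0 L := by
    intro f mf hf
    rw [intervalIntegrable_iff_integrableOn_Ioc_of_le hL.le]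
    refine IntegrableOn.of_bound (by simp) mf.aestronglyMeasurable 1 ?_
    filter_upwards with x
    rw [Real.norm_eq_abs, abs_of_nonneg (hf x).1]
    exact (hf x).2
  have hcomp := coop_mono ha hb0 hL (iBd p₀ mp bp) (iBd q₀ mq bq) iOne iOne hs hT
    (fun x _ => (bp x).2) (fun x _ => (bq x).2)
  -- monotonicity in time of the maximal solution
  have hmono : ∀ t₀, 0 < t₀ → ∀ t, 0 < t → ∀ x ∈ Icc 0 L,
      Pt (t₀ + t) x ≤ Pt t x ∧ Qt (t₀ + t) x ≤ Qt t x := by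
    intro t₀ ht₀
    have h1 := coop_shift hL hT ht₀
    have hcP : IntervalIntegrable (Pt t₀) volume 0 L :=
      (P7_slice hT.contp ht₀).intervalIntegrable_of_Icc hL.le
    have hcQ : IntervalIntegrable (Qt t₀) volume 0 L :=
      (P7_slice hT.contq ht₀).intervalIntegrable_of_Icc hL.le
    exact coop_mono ha hb0 hL hcP hcQ iOne iOne h1 hT
      (fun x hx => (hT.mem t₀ ht₀ x (Ioo_subset_Icc_self hx)).1.2)
      (fun x hx => (hT.mem t₀ ht₀ x (Ioo_subset_Icc_self hx)).2.2)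
  have hanti : ∀ t t', 0 < t → t ≤ t' → ∀ x ∈ Icc 0 L, Pt t' x ≤ Pt t x ∧ Qt t' x ≤ Qt t x := by
    intro t t' ht htt x hx
    rcases eq_or_lt_of_le htt with h | h
    · rw [h]; exact ⟨le_rfl, le_rfl⟩
    · have := hmono (t' - t) (by linarith) t ht x hx
      rw [sub_add_cancel] at this
      exact this
  have tpos : ∀ n : ℕ, (0 : ℝ) < (n : ℝ) + 1 := fun n => by positivity
  -- limits along integers
  have key : ∀ R : ℝ → ℝ → ℝ,
      ContinuousOn (fun z : ℝ × ℝ => R z.1 z.2) (Ioi 0 ×ˢ Icc 0 L) →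
      (∀ t, 0 < t → ∀ x ∈ Icc 0 L, R t x ∈ Icc (0 : ℝ) 1) →
      (∀ t t', 0 < t → t ≤ t' → ∀ x ∈ Icc 0 L, R t' x ≤ R t x) →
      ∃ F : ℝ → ℝ, Measurable F ∧ (∀ x, F x ∈ Icc (0 : ℝ) 1) ∧
        ∀ s ∈ Icc (0 : ℝ) 1, ∀ x ∈ Icc 0 L,
          Tendsto (fun n : ℕ => R ((n : ℝ) + 1 + s) x) atTop (𝓝 (F x)) := by
    intro R cR bR mR
    classical
    let g : ℕ → ℝ → ℝ := fun n => (Icc (0 : ℝ) L).piecewise (R ((n : ℝ) + 1)) (fun _ => 0)
    have mg : ∀ n, Measurable (g n) := fun n =>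
      ContinuousOn.measurable_piecewise (P7_slice cR (tpos n)) continuousOn_const
        measurableSet_Icc
    have gin : ∀ n, ∀ x ∈ Icc 0 L, g n x = R ((n : ℝ) + 1) x := fun n x hx =>
      piecewise_eq_of_mem _ _ _ hx
    have gout : ∀ n, ∀ x, x ∉ Icc 0 L → g n x = 0 := fun n x hx =>
      piecewise_eq_of_notMem _ _ _ hx
    have gb : ∀ n x, g n x ∈ Icc (0 : ℝ) 1 := by
      intro n x
      by_cases hx : x ∈ Icc 0 L
      · rw [gin n x hx]; exact bR _ (tpos n) x hx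
      · rw [gout n x hx]; exact ⟨le_rfl, zero_le_one⟩
    have ganti : ∀ x, Antitone (fun n => g n x) := by
      intro x
      by_cases hx : x ∈ Icc 0 L
      · intro m n hmn
        simp only [gin _ x hx]
        have : (m : ℝ) ≤ n := by exact_mod_cast hmn
        exact mR _ _ (tpos m) (by linarith) x hx
      · intro m n hmn
        simp only [gout _ x hx]
        exact le_rfl
    let F : ℝ → ℝ := fun x => ⨅ n, g n x
    have hbdd : ∀ x, BddBelow (range fun n => g n x) := fun x =>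
      ⟨0, by rintro _ ⟨n, rfl⟩; exact (gb n x).1⟩
    have hlimF : ∀ x, Tendsto (fun n => g n x) atTop (𝓝 (F x)) := fun x =>
      tendsto_atTop_ciInf (ganti x) (hbdd x)
    refine ⟨F, ?_, ?_, ?_⟩
    · exact measurable_of_tendsto_metrizable mg (tendsto_pi_nhds.mpr hlimF)
    · intro x
      exact ⟨le_ciInf (fun n => (gb n x).1), (ciInf_le (hbdd x) 0).trans (gb 0 x).2⟩
    · intro s hs x hx
      have h1 : Tendsto (fun n : ℕ => R ((n : ℝ) + 1) x) atTop (𝓝 (F x)) :=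
        (hlimF x).congr (fun n => gin n x hx)
      have h2 : Tendsto (fun n : ℕ => R (((n + 1 : ℕ) : ℝ) + 1) x) atTop (𝓝 (F x)) :=
        (tendsto_add_atTop_iff_nat (f := fun n : ℕ => R ((n : ℝ) + 1) x) 1).mpr h1
      refine tendsto_of_tendsto_of_tendsto_of_le_of_le h2 h1 ?_ ?_
      · intro n
        have := tpos n
        refine mR _ _ (by linarith [hs.1]) ?_ x hx
        push_cast
        linarith [hs.2]
      · intro n
        exact mR _ _ (tpos n) (by linarith [hs.1]) x hx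
  obtain ⟨P, mP, bP, limP⟩ := key Pt hT.contp (fun t ht x hx => (hT.mem t ht x hx).1)
    (fun t t' ht h x hx => (hanti t t' ht h x hx).1)
  obtain ⟨Q, mQ, bQ, limQ⟩ := key Qt hT.contq (fun t ht x hx => (hT.mem t ht x hx).2)
    (fun t t' ht h x hx => (hanti t t' ht h x hx).2)
  have habs : ∀ u : ℝ, u ∈ Icc (0 : ℝ) 1 → |u| ≤ 1 := fun u hu => by
    rw [abs_of_nonneg hu.1]; exact hu.2
  -- the limit is a weak stationary solution
  have wP : ∀ φ : ℝ → ℝ, ContDiff ℝ 2 φ → φ 0 = 0 → φ L = 0 →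
      ∫ x in (0 : ℝ)..L, (P x * deriv (deriv φ) x + F₁ a (P x) (Q x) * φ x) = 0 := by
    intro φ hφ h0 hφL
    refine P7_weaklim hL (w := Pt) (h := fun t x => F₁ a (Pt t x) (Qt t x)) (M := 1 + a)
      hT.contp (P7_contF₁ hT) ?_ ?_ ?_ limP ?_ hφ h0 hφL
    · intro t ht x hx
      have := habs _ (hT.mem t ht x hx).1
      linarith
    · intro t ht x hx
      exact P7_F₁_bound ha (hT.mem t ht x hx).1 (hT.mem t ht x hx).2
    · intro t₀ ht₀
      exact (coop_shift hL hT ht₀).weakp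
    · intro s hs' x hx
      unfold F₁
      exact (limP s hs' x hx).mul (((tendsto_const_nhds.sub tendsto_const_nhds).sub
        (limP s hs' x hx)).add ((limQ s hs' x hx).const_mul a))
  have wQ : ∀ φ : ℝ → ℝ, ContDiff ℝ 2 φ → φ 0 = 0 → φ L = 0 →
      ∫ x in (0 : ℝ)..L, (Q x * deriv (deriv φ) x + F₂ b (P x) (Q x) * φ x) = 0 := by
    intro φ hφ h0 hφL
    refine P7_weaklim hL (w := Qt) (h := fun t x => F₂ b (Pt t x) (Qt t x)) (M := 1 + b)
      hT.contq (P7_contF₂ hT) ?_ ?_ ?_ limQ ?_ hφ h0 hφL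
    · intro t ht x hx
      have := habs _ (hT.mem t ht x hx).2
      linarith
    · intro t ht x hx
      exact P7_F₂_bound hb0 (hT.mem t ht x hx).1 (hT.mem t ht x hx).2
    · intro t₀ ht₀
      exact (coop_shift hL hT ht₀).weakq
    · intro s hs' x hx
      unfold F₂
      exact (tendsto_const_nhds.sub (limQ s hs' x hx)).mul
        (((limP s hs' x hx).const_mul b).sub (limQ s hs' x hx))
  obtain ⟨pl, ql, hst, hp0, hq0, hpL, hqL, haeP, haeQ⟩ :=
    stat_of_weak ha hb0 hL mP mQ bP bQ wP wQ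
  have hpz : ∀ x ∈ Icc 0 L, pl x = 0 := by
    by_contra hcon
    push Not at hcon
    exact hno ⟨pl, ql, hst, hp0, hq0, hpL, hqL, hcon⟩
  obtain ⟨hrange, pl', ql', hder⟩ := hst
  have hqz : ∀ x ∈ Icc 0 L, ql x = 0 := by
    have hq'mono : MonotoneOn ql' (Icc 0 L) := by
      apply monotoneOn_of_deriv_nonneg (convex_Icc 0 L)
      · intro x hx
        exact (hder x hx).2.2.2.continuousAt.continuousWithinAt
      · intro x hx
        rw [interior_Icc] at hx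
        exact (hder x (Ioo_subset_Icc_self hx)).2.2.2.differentiableAt.differentiableWithinAt
      · intro x hx
        rw [interior_Icc] at hx
        have hx' := Ioo_subset_Icc_self hx
        rw [(hder x hx').2.2.2.deriv, hpz x hx']
        unfold F₂
        have h1 := (hrange x hx').2
        nlinarith [h1.1, h1.2, mul_nonneg h1.1 (sub_nonneg.mpr h1.2)]
    intro x hx
    have hxn := (hrange x hx).2.1
    rcases eq_or_lt_of_le hx.1 with h | h
    · rw [← h, hq0]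
    rcases eq_or_lt_of_le hx.2 with h' | h'
    · rw [h', hqL]
    obtain ⟨ξ₁, hξ₁, e₁⟩ := exists_hasDerivAt_eq_slope ql ql' h
      (fun y hy => (hder y ⟨hy.1, hy.2.trans hx.2⟩).2.1.continuousAt.continuousWithinAt)
      (fun y hy => (hder y ⟨hy.1.le, hy.2.le.trans hx.2⟩).2.1)
    obtain ⟨ξ₂, hξ₂, e₂⟩ := exists_hasDerivAt_eq_slope ql ql' h'
      (fun y hy => (hder y ⟨hx.1.trans hy.1, hy.2⟩).2.1.continuousAt.continuousWithinAt)
      (fun y hy => (hder y ⟨hx.1.trans hy.1.le, hy.2.le⟩).2.1)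
    have hle := hq'mono ⟨hξ₁.1.le, hξ₁.2.le.trans hx.2⟩ ⟨hx.1.trans hξ₂.1.le, hξ₂.2.le⟩
      (hξ₁.2.le.trans hξ₂.1.le)
    rw [e₁, e₂, hq0, hqL, sub_zero, sub_zero, zero_sub] at hle
    have h2 : 0 ≤ ql x / x := div_nonneg hxn h.le
    have h3 : -ql x / (L - x) ≤ 0 :=
      div_nonpos_of_nonpos_of_nonneg (by linarith) (by linarith)
    have h4 : ql x / x = 0 := le_antisymm (hle.trans h3) h2
    rcases div_eq_zero_iff.mp h4 with h5 | h5
    · exact h5
    · exact absurd h5 h.ne'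
  -- the integrals tend to zero
  have hint : ∀ (R : ℝ → ℝ → ℝ) (F f : ℝ → ℝ),
      ContinuousOn (fun z : ℝ × ℝ => R z.1 z.2) (Ioi 0 ×ˢ Icc 0 L) →
      (∀ t, 0 < t → ∀ x ∈ Icc 0 L, R t x ∈ Icc (0 : ℝ) 1) →
      (∀ s ∈ Icc (0 : ℝ) 1, ∀ x ∈ Icc 0 L,
          Tendsto (fun n : ℕ => R ((n : ℝ) + 1 + s) x) atTop (𝓝 (F x))) →
      (∀ᵐ x ∂(volume.restrict (Ioo 0 L)), F x = f x) → (∀ x ∈ Icc 0 L, f x = 0) →
      Tendsto (fun n : ℕ => ∫ x in (0 : ℝ)..L, R ((n : ℝ) + 1) x) atTop (𝓝 0) := by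
    intro R F f cR bR lR hae hf
    have h1 : Tendsto (fun n : ℕ => ∫ x in (0 : ℝ)..L, R ((n : ℝ) + 1) x) atTop
        (𝓝 (∫ x in (0 : ℝ)..L, F x)) := by
      apply P7_dct hL (C := 1)
      · intro n
        exact (P7_slice cR (tpos n)).mono Ioc_subset_Icc_self
      · intro n x hx
        exact habs _ (bR _ (tpos n) x (Ioc_subset_Icc_self hx))
      · intro x hx
        have := lR 0 ⟨le_rfl, zero_le_one⟩ x (Ioc_subset_Icc_self hx)
        simpa using this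
    have h2 : ∫ x in (0 : ℝ)..L, F x = 0 := by
      rw [intervalIntegral.integral_of_le hL.le, integral_Ioc_eq_integral_Ioo]
      have : ∀ᵐ x ∂(volume.restrict (Ioo 0 L)), F x = 0 := by
        filter_upwards [hae, ae_restrict_mem measurableSet_Ioo] with x hx hx'
        rw [hx, hf x (Ioo_subset_Icc_self hx')]
      exact integral_eq_zero_of_ae this
    rwa [h2] at h1
  have hiP := hint Pt P pl hT.contp (fun t ht x hx => (hT.mem t ht x hx).1) limP haeP hpz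
  have hiQ := hint Qt Q ql hT.contq (fun t ht x hx => (hT.mem t ht x hx).2) limQ haeQ hqz
  intro ε hε
  set τ : ℝ := ε / (4 * (1 + a + b)) with hτdef
  have hS : 0 < 1 + a + b := by linarith
  have hτ : 0 < τ := by positivity
  have hτe : (1 + a + b) * τ = ε / 4 := by
    rw [hτdef]
    field_simp
  obtain ⟨C, hC0, hC⟩ := coop_smoothing ha hb0 hL hτ
  have eP : Tendsto (fun n : ℕ => C * ∫ x in (0 : ℝ)..L, Pt ((n : ℝ) + 1) x) atTop (𝓝 0) := by
    simpa using hiP.const_mul C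
  have eQ : Tendsto (fun n : ℕ => C * ∫ x in (0 : ℝ)..L, Qt ((n : ℝ) + 1) x) atTop (𝓝 0) := by
    simpa using hiQ.const_mul C
  have hε4 : 0 < ε / 4 := by positivity
  obtain ⟨n, hnP, hnQ⟩ := ((eP.eventually (gt_mem_nhds hε4)).and
    (eQ.eventually (gt_mem_nhds hε4))).exists
  refine ⟨(n : ℝ) + 1 + τ, by have := tpos n; linarith, fun t ht x hx => ?_⟩
  have hn := tpos n
  have ht0 : 0 < t := by linarith [hn, hτ, (show (n : ℝ) + 1 + τ ≤ t from ht)]
  have h1 := hC _ _ Pt Qt hT ((n : ℝ) + 1) hn x hx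
  have h2 := hanti ((n : ℝ) + 1 + τ) t (by linarith) ht x hx
  have h3 := hcomp t ht0 x hx
  constructor
  · linarith [h1.1, h2.1, h3.1]
  · linarith [h1.2, h2.2, h3.2]

end Pool.Agent.H62.LV
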